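import Mathlib
import Pool.Agent.N606.KLook.Nonneg

set_option autoImplicit false

namespace Pool.Agent.Results.MP_0f9109_lc.LookaheadGap

open Pool.Agent.N606.KLook

/-- The approximation ratio `rho k` of the `k`-lookahead auction is nonnegative, is at most `4/5`
for every `k ≥ 2`, and does not tend to `1`. -/
theorem result :
    (∀ k : ℕ, 0 ≤ rho k) ∧ (∀ k : ℕ, 2 ≤ k → rho k ≤ ((4 / 5 : ℝ) : EReal)) ∧
      ¬ Filter.Tendsto rho Filter.atTop (nhds 1) :=
  ⟨rho_nonneg, fun _ hk => rho_le hk, not_tendsto⟩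

end Pool.Agent.Results.MP_0f9109_lc.LookaheadGap
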